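import Pool.Agent.H997R3.Gon.Example

set_option autoImplicit false

namespace Pool.Agent.Results.MP_28c31d_co.SubdivisionLowersGonality

/-- There is a finite connected loopless multigraph `G` such that, for every `k ≥ 2` (in
particular for every odd `k ≥ 3`), the graph obtained from `G` by replacing every edge with a path
of `k` edges has strictly smaller divisorial gonality than `G`. -/
theorem result : ∃ (V E : Type) (_ : Fintype V) (_ : DecidableEq V) (_ : Fintype E)
    (_ : DecidableEq E) (G : Pool.Agent.H997R3.Gon.MGraph V E),
    G.Connected ∧ ∀ k : ℕ, 2 ≤ k → (G.subdiv k).gon < G.gon :=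
  ⟨_, _, inferInstance, inferInstance, inferInstance, inferInstance,
    Pool.Agent.H997R3.Gon.Example.G, Pool.Agent.H997R3.Gon.Example.G_connected,
    fun k hk => lt_of_le_of_lt (Pool.Agent.H997R3.Gon.Example.G_upper k hk)
      Pool.Agent.H997R3.Gon.Example.G_lower⟩

end Pool.Agent.Results.MP_28c31d_co.SubdivisionLowersGonality
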